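import Mathlib
import Pool.Agent.Q182.LadderSuitable
import Pool.Agent.Q182.Bounding

/-!
# A topological group with an `ω^ω`-base and without a suitable set
-/

namespace Pool.Agent.Results.MP_1d7995_gt.NoSuitableSet

open Set Cardinal Q182 Topology Filter

/-- `X` has an `ω^ω`-base: every point `x` has a neighbourhood base `(U f)` indexed by the
functions `f : ω → ω` with `U g ⊆ U f` whenever `f ≤ g` pointwise. -/
def HasOmegaOmegaBase (X : Type) [TopologicalSpace X] : Prop :=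
  ∀ x : X, ∃ U : (ℕ → ℕ) → Set X, (∀ f, U f ∈ 𝓝 x) ∧ (∀ V ∈ 𝓝 x, ∃ f, U f ⊆ V) ∧
    ∀ f g, f ≤ g → U g ⊆ U f

section General

variable (T : Type) [LinearOrder T] [WellFoundedLT T] [Nonempty T]

lemma isTopologicalAddGroup : @IsTopologicalAddGroup (Ladder.HG T) (Ladder.topHG T) _ := by
  let _ : TopologicalSpace (Ladder.HG T) := Ladder.topHG T
  refine @IsTopologicalAddGroup.mk _ _ _ ⟨?_⟩ ⟨?_⟩
  · refine continuous_def.2 fun O hO => isOpen_prod_iff.2 ?_
    intro a b hab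
    obtain ⟨α, hα⟩ := (Ladder.isOpen_topHG O).1 hO (a + b) hab
    refine ⟨_, _, Ladder.isOpen_ball a α, Ladder.isOpen_ball b α, fun _ _ => rfl,
      fun _ _ => rfl, ?_⟩
    rintro ⟨c, d⟩ ⟨hc, hd⟩
    apply hα
    intro β hβ
    have h1 : c.1 β = a.1 β := hc β hβ
    have h2 : d.1 β = b.1 β := hd β hβ
    show c.1 β + d.1 β = a.1 β + b.1 β
    rw [h1, h2]
  · refine continuous_def.2 fun O hO => (Ladder.isOpen_topHG _).2 ?_
    intro a ha
    obtain ⟨α, hα⟩ := (Ladder.isOpen_topHG O).1 hO (-a) ha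
    refine ⟨α, fun y hy => hα _ fun β hβ => ?_⟩
    show -(y.1 β) = -(a.1 β)
    rw [hy β hβ]

lemma t2Space (hmax : ∀ a : T, ∃ b, a < b) : @T2Space (Ladder.HG T) (Ladder.topHG T) := by
  let _ : TopologicalSpace (Ladder.HG T) := Ladder.topHG T
  refine ⟨fun x y hxy => ?_⟩
  obtain ⟨β, hβ⟩ : ∃ β, x.1 β ≠ y.1 β := by
    by_contra hcon
    push Not at hcon
    exact hxy (Subtype.ext (funext hcon))
  obtain ⟨α, hα⟩ := hmax β
  refine ⟨_, _, Ladder.isOpen_ball x α, Ladder.isOpen_ball y α, fun _ _ => rfl,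
    fun _ _ => rfl, ?_⟩
  rw [Set.disjoint_left]
  intro z hz1 hz2
  have h1 : z.1 β = x.1 β := hz1 β hα
  have h2 : z.1 β = y.1 β := hz2 β hα
  exact hβ (h1.symm.trans h2)

lemma hasBase (φ : (ℕ → ℕ) → T) (hφ : Monotone φ) (hφ' : ∀ a, ∃ g, a < φ g) :
    @HasOmegaOmegaBase (Ladder.HG T) (Ladder.topHG T) := by
  let _ : TopologicalSpace (Ladder.HG T) := Ladder.topHG T
  intro x
  refine ⟨fun f => {y | ∀ β < φ f, y.1 β = x.1 β}, fun f => ?_, fun V hV => ?_, ?_⟩
  · exact (Ladder.isOpen_ball x (φ f)).mem_nhds fun _ _ => rfl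
  · obtain ⟨O, hOV, hO, hxO⟩ := mem_nhds_iff.1 hV
    obtain ⟨α, hα⟩ := (Ladder.isOpen_topHG O).1 hO x hxO
    obtain ⟨f, hf⟩ := hφ' α
    exact ⟨f, fun y hy => hOV (hα y fun β hβ => hy β (hβ.trans hf))⟩
  · intro f g hfg y hy β hβ
    exact hy β (hβ.trans_le (hφ hfg))

end General

/-- There is a (Tychonoff, abelian) topological group with an `ω^ω`-base that has no suitable
set. -/
theorem result :
    ∃ (G : Type) (_ : AddCommGroup G) (_ : TopologicalSpace G),
      IsTopologicalAddGroup G ∧ T35Space G ∧ HasOmegaOmegaBase G ∧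
        ¬ ∃ S : Set G, IsSuitable S := by
  have hunc : ℵ₀ < #Bounding.TB := by
    rw [Bounding.mk_TB]
    exact Bounding.aleph0_lt_bb
  have hne : Nonempty Bounding.TB := by
    rw [← Cardinal.mk_ne_zero_iff]
    intro h
    rw [h] at hunc
    exact absurd hunc (not_lt.2 (zero_le))
  have hmax : ∀ a : Bounding.TB, ∃ b, a < b := by
    intro a
    obtain ⟨b, hb⟩ := Bounding.bounded {a} (by
      rw [Cardinal.mk_singleton]
      exact one_lt_aleph0.trans hunc)
    exact ⟨b, hb a rfl⟩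
  obtain ⟨φ, hφ, hφ'⟩ := Bounding.exists_cofinal
  refine ⟨Ladder.HG Bounding.TB, inferInstance, Ladder.topHG Bounding.TB,
    isTopologicalAddGroup _, ?_, hasBase _ φ hφ hφ', ?_⟩
  · let _ : TopologicalSpace (Ladder.HG Bounding.TB) := Ladder.topHG Bounding.TB
    have h1 : IsTopologicalAddGroup (Ladder.HG Bounding.TB) := isTopologicalAddGroup _
    have h2 : T2Space (Ladder.HG Bounding.TB) := t2Space _ hmax
    have h3 : CompletelyRegularSpace (Ladder.HG Bounding.TB) :=
      @UniformSpace.toCompletelyRegularSpace (Ladder.HG Bounding.TB)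
        (IsTopologicalAddGroup.rightUniformSpace (Ladder.HG Bounding.TB))
    exact {}
  · rintro ⟨S, hS⟩
    exact Ladder.not_suitable Bounding.mk_Iic_lt Bounding.bounded hunc S hS

end Pool.Agent.Results.MP_1d7995_gt.NoSuitableSet
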